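import Pool.Agent.N782.GN.StmV

/-!
# GN/EL: lattice points in classes with a phase
-/

set_option autoImplicit false

namespace Pool.Agent.N56.GN

open Pool.Agent.N782.GN MeasureTheory

theorem Psi_eq (k : ℤ) (τ : ℝ) (z : ℂ) :
    Psi k τ z = Complex.exp (Complex.arg z * Complex.I) ^ k *
      Complex.exp (Complex.I * ((-2 * τ * Real.log ‖z‖ : ℝ) : ℂ)) := by
  unfold Psi
  rw [← Complex.exp_int_mul, ← Complex.exp_add]
  congr 1
  push_cast
  ring

theorem norm_Psi (k : ℤ) (τ : ℝ) (z : ℂ) : ‖Psi k τ z‖ = 1 := by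
  unfold Psi
  rw [mul_comm]
  exact Complex.norm_exp_ofReal_mul_I _

theorem nz_norm (t : ZI) : nz t = ‖(t : ℂ)‖ ^ 2 := by
  rw [← Complex.normSq_eq_norm_sq, ← GaussianInt.intCast_real_norm]
  rfl

theorem ph_eq (k : ℤ) (τ : ℝ) (t : ZI) : ph k τ t = Psi k τ (t : ℂ) := by
  unfold ph Psi
  congr 3
  rw [nz_norm, Real.log_pow]
  push_cast
  ring

/-- the Lipschitz bound -/
theorem lip (k : ℤ) (τ : ℝ) {z w : ℂ} (hz : z ≠ 0) (h : ‖w - z‖ ≤ ‖z‖ / 2) :
    ‖Psi k τ w - Psi k τ z‖ ≤ 3 * (|(k : ℝ)| + |τ|) * (‖w - z‖ / ‖z‖) := by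
  have hz0 : 0 < ‖z‖ := norm_pos_iff.2 hz
  set δ : ℂ := (w - z) / z with hδ
  have hδn : ‖δ‖ = ‖w - z‖ / ‖z‖ := by rw [hδ, norm_div]
  have hδ2 : ‖δ‖ ≤ 1 / 2 := by
    rw [hδn, div_le_iff₀ hz0]; linarith
  have hne : 1 + δ ≠ 0 := by
    intro h0
    have h1 : δ = -1 := by linear_combination h0
    rw [h1] at hδ2
    norm_num at hδ2
  set L := Complex.log (1 + δ) with hL
  have hexp : Complex.exp L = 1 + δ := Complex.exp_log hne
  have hw : w = z * Complex.exp L := by
    rw [hexp, hδ]; field_simp; ring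
  have hLn : ‖L‖ ≤ 3 / 2 * ‖δ‖ := Complex.norm_log_one_add_half_le_self hδ2
  have hwn : ‖w‖ = ‖z‖ * Real.exp L.re := by rw [hw, norm_mul, Complex.norm_exp]
  have hw0 : w ≠ 0 := by rw [hw]; exact mul_ne_zero hz (Complex.exp_ne_zero _)
  have hwn0 : (‖w‖ : ℂ) ≠ 0 := by
    rw [Complex.ofReal_ne_zero]; exact (norm_pos_iff.2 hw0).ne'
  have hzn0 : (‖z‖ : ℂ) ≠ 0 := by rw [Complex.ofReal_ne_zero]; exact hz0.ne'
  have hlog : Real.log ‖w‖ = Real.log ‖z‖ + L.re := by
    rw [hwn, Real.log_mul hz0.ne' (Real.exp_pos _).ne', Real.log_exp]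
  have harg : Complex.exp (Complex.arg w * Complex.I) =
      Complex.exp (Complex.arg z * Complex.I) * Complex.exp (L.im * Complex.I) := by
    apply mul_left_cancel₀ hwn0
    rw [Complex.norm_mul_exp_arg_mul_I]
    conv_lhs => rw [hw, ← Complex.norm_mul_exp_arg_mul_I z, ← Complex.re_add_im L, Complex.exp_add]
    rw [hwn]
    push_cast
    ring
  have hPsi : Psi k τ w = Psi k τ z *
      Complex.exp (Complex.I * ((k * L.im - 2 * τ * L.re : ℝ) : ℂ)) := by
    rw [Psi_eq, Psi_eq, harg, hlog, mul_zpow, ← Complex.exp_int_mul (L.im * Complex.I)]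
    have e1 : Complex.exp (Complex.I * ((-2 * τ * (Real.log ‖z‖ + L.re) : ℝ) : ℂ)) =
        Complex.exp (Complex.I * ((-2 * τ * Real.log ‖z‖ : ℝ) : ℂ)) *
          Complex.exp (Complex.I * ((-2 * τ * L.re : ℝ) : ℂ)) := by
      rw [← Complex.exp_add]; congr 1; push_cast; ring
    have e2 : Complex.exp (Complex.I * ((k * L.im - 2 * τ * L.re : ℝ) : ℂ)) =
        Complex.exp (k * (L.im * Complex.I)) * Complex.exp (Complex.I * ((-2 * τ * L.re : ℝ) : ℂ)) := by
      rw [← Complex.exp_add]; congr 1; push_cast; ring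
    rw [e1, e2]
    ring
  have hsub : Psi k τ w - Psi k τ z = Psi k τ z *
      (Complex.exp (Complex.I * ((k * L.im - 2 * τ * L.re : ℝ) : ℂ)) - 1) := by rw [hPsi]; ring
  rw [hsub, norm_mul, norm_Psi, one_mul]
  refine (Real.norm_exp_I_mul_ofReal_sub_one_le).trans ?_
  rw [Real.norm_eq_abs]
  have a1 : |L.im| ≤ ‖L‖ := Complex.abs_im_le_norm L
  have a2 : |L.re| ≤ ‖L‖ := Complex.abs_re_le_norm L
  calc |(k : ℝ) * L.im - 2 * τ * L.re| ≤ |(k : ℝ) * L.im| + |2 * τ * L.re| := abs_sub _ _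
    _ = |(k : ℝ)| * |L.im| + 2 * |τ| * |L.re| := by
        rw [abs_mul, abs_mul, abs_mul, abs_two]
    _ ≤ |(k : ℝ)| * ‖L‖ + 2 * |τ| * ‖L‖ := by gcongr
    _ = (|(k : ℝ)| + 2 * |τ|) * ‖L‖ := by ring
    _ ≤ (|(k : ℝ)| + 2 * |τ|) * (3 / 2 * ‖δ‖) := by gcongr
    _ ≤ 3 * (|(k : ℝ)| + |τ|) * ‖δ‖ := by
        nlinarith [abs_nonneg (k : ℝ), abs_nonneg τ, norm_nonneg δ,
          mul_nonneg (abs_nonneg (k : ℝ)) (norm_nonneg δ)]
    _ = _ := by rw [hδn]

/-- radial functions -/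
theorem rad (h : ℝ → ENNReal) (hh : Measurable h) :
    ∫⁻ z : ℂ, h ‖z‖ = ENNReal.ofReal (2 * Real.pi) * ∫⁻ r in Set.Ioi (0 : ℝ), ENNReal.ofReal r * h r := by
  rw [← Complex.lintegral_comp_polarCoord_symm]
  have e1 : ∫⁻ p in polarCoord.target, ENNReal.ofReal p.1 • h ‖Complex.polarCoord.symm p‖ =
      ∫⁻ p in Set.Ioi (0 : ℝ) ×ˢ Set.Ioo (-Real.pi) Real.pi, ENNReal.ofReal p.1 * h p.1 := by
    apply setLIntegral_congr_fun (measurableSet_Ioi.prod measurableSet_Ioo)
    intro p hp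
    have hp1 : 0 < p.1 := hp.1
    simp only [smul_eq_mul]
    rw [Complex.norm_polarCoord_symm, abs_of_pos hp1]
  rw [e1, Measure.volume_eq_prod, ← Measure.prod_restrict,
    lintegral_prod _ (by fun_prop)]
  simp only [lintegral_const, Measure.restrict_apply MeasurableSet.univ, Set.univ_inter,
    Real.volume_Ioo]
  rw [lintegral_mul_const _ (by fun_prop), mul_comm]
  congr 2
  ring

theorem rad_ann {a b : ℝ} (hb : 0 ≤ b) :
    ∫⁻ z : ℂ, (Set.Icc a b).indicator (fun _ => (1 : ENNReal)) ‖z‖ ≤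
      ENNReal.ofReal (2 * Real.pi * (b * (b - a))) := by
  rw [rad _ (measurable_const.indicator measurableSet_Icc)]
  have h1 : ∫⁻ r in Set.Ioi (0 : ℝ), ENNReal.ofReal r * (Set.Icc a b).indicator (fun _ => (1 : ENNReal)) r ≤
      ENNReal.ofReal b * ENNReal.ofReal (b - a) := by
    calc _ ≤ ∫⁻ r in Set.Ioi (0 : ℝ), (Set.Icc a b).indicator (fun _ => ENNReal.ofReal b) r := by
          apply lintegral_mono
          intro r
          by_cases hr : r ∈ Set.Icc a b
          · simp only [Set.indicator_of_mem hr, mul_one]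
            exact ENNReal.ofReal_le_ofReal hr.2
          · simp [Set.indicator_of_notMem hr]
      _ ≤ ∫⁻ r, (Set.Icc a b).indicator (fun _ => ENNReal.ofReal b) r := setLIntegral_le_lintegral _ _
      _ = _ := by
          rw [lintegral_indicator measurableSet_Icc, lintegral_const, Measure.restrict_apply MeasurableSet.univ, Set.univ_inter,
            Real.volume_Icc]
  calc _ ≤ ENNReal.ofReal (2 * Real.pi) * (ENNReal.ofReal b * ENNReal.ofReal (b - a)) := by gcongr
    _ = _ := by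
      rw [← ENNReal.ofReal_mul hb, ← ENNReal.ofReal_mul (by positivity)]

theorem rad_inv {ρ : ℝ} :
    ∫⁻ z : ℂ, (Set.Icc 0 ρ).indicator (fun r => ENNReal.ofReal (1 / r)) ‖z‖ ≤
      ENNReal.ofReal (2 * Real.pi * ρ) := by
  rw [rad _ (Measurable.indicator (by fun_prop) measurableSet_Icc)]
  have h1 : ∫⁻ r in Set.Ioi (0 : ℝ), ENNReal.ofReal r *
      (Set.Icc 0 ρ).indicator (fun r => ENNReal.ofReal (1 / r)) r ≤ ENNReal.ofReal ρ := by
    calc _ ≤ ∫⁻ r in Set.Ioi (0 : ℝ), (Set.Icc 0 ρ).indicator (fun _ => (1 : ENNReal)) r := by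
          apply setLIntegral_mono' measurableSet_Ioi
          intro r hr0
          by_cases hr : r ∈ Set.Icc 0 ρ
          · simp only [Set.indicator_of_mem hr]
            rw [← ENNReal.ofReal_mul (le_of_lt hr0), mul_one_div_cancel (ne_of_gt hr0)]
            simp
          · simp [Set.indicator_of_notMem hr]
      _ ≤ ∫⁻ r, (Set.Icc 0 ρ).indicator (fun _ => (1 : ENNReal)) r := setLIntegral_le_lintegral _ _
      _ = _ := by
          rw [lintegral_indicator measurableSet_Icc, lintegral_const, Measure.restrict_apply MeasurableSet.univ, Set.univ_inter,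
            Real.volume_Icc, one_mul, sub_zero]
  calc _ ≤ ENNReal.ofReal (2 * Real.pi) * ENNReal.ofReal ρ := by gcongr
    _ = _ := by rw [← ENNReal.ofReal_mul (by positivity)]

/-- the main term -/
theorem main_int (k : ℤ) (τ : ℝ) {ρ : ℝ} (hρ : 0 < ρ) :
    ∫ z : ℂ, (Metric.closedBall (0 : ℂ) ρ).indicator (Psi k τ) z = if k = 0 then
      (Real.pi : ℂ) * (((ρ ^ 2 : ℝ) : ℂ) ^ (1 - (τ : ℂ) * Complex.I) / (1 - (τ : ℂ) * Complex.I)) else 0 := by
  rw [← Complex.integral_comp_polarCoord_symm]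
  have hpi := Real.pi_pos
  have e1 : ∫ p in polarCoord.target, p.1 • (Metric.closedBall (0 : ℂ) ρ).indicator (Psi k τ)
      (Complex.polarCoord.symm p) =
      ∫ p in Set.Ioi (0 : ℝ) ×ˢ Set.Ioo (-Real.pi) Real.pi,
        (Set.Ioc 0 ρ).indicator (fun r : ℝ => (r : ℂ) ^ (1 - 2 * (τ : ℂ) * Complex.I)) p.1 *
          Complex.exp ((k * p.2 : ℝ) * Complex.I) := by
    apply setIntegral_congr_fun (measurableSet_Ioi.prod measurableSet_Ioo)
    intro p hp
    have hp1 : 0 < p.1 := hp.1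
    have hp2 : p.2 ∈ Set.Ioc (-Real.pi) Real.pi := ⟨hp.2.1, hp.2.2.le⟩
    have hn : ‖Complex.polarCoord.symm p‖ = p.1 := by
      rw [Complex.norm_polarCoord_symm, abs_of_pos hp1]
    simp only
    by_cases hr : p.1 ≤ ρ
    · have m1 : Complex.polarCoord.symm p ∈ Metric.closedBall (0 : ℂ) ρ := by
        rw [mem_closedBall_zero_iff, hn]; exact hr
      have m2 : p.1 ∈ Set.Ioc 0 ρ := ⟨hp1, hr⟩
      rw [Set.indicator_of_mem m1, Set.indicator_of_mem m2]
      unfold Psi
      rw [hn]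
      have harg : Complex.arg (Complex.polarCoord.symm p) = p.2 := by
        rw [Complex.polarCoord_symm_apply]
        push_cast
        exact Complex.arg_mul_cos_add_sin_mul_I hp1 hp2
      rw [harg, Complex.real_smul, Complex.cpow_def_of_ne_zero (by exact_mod_cast hp1.ne'),
        ← Complex.ofReal_log hp1.le, ← Complex.exp_add]
      have e3 : (p.1 : ℂ) = Complex.exp (Real.log p.1 : ℝ) := by
        rw [← Complex.ofReal_exp, Real.exp_log hp1]
      conv_lhs => rw [e3]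
      rw [← Complex.exp_add]
      congr 1
      push_cast
      ring
    · have m1 : Complex.polarCoord.symm p ∉ Metric.closedBall (0 : ℂ) ρ := by
        rw [mem_closedBall_zero_iff, hn]; exact hr
      have m2 : p.1 ∉ Set.Ioc 0 ρ := fun h => hr h.2
      rw [Set.indicator_of_notMem m1, Set.indicator_of_notMem m2, smul_zero, zero_mul]
  rw [e1, Measure.volume_eq_prod, setIntegral_prod_mul
    (fun r : ℝ => (Set.Ioc 0 ρ).indicator (fun r : ℝ => (r : ℂ) ^ (1 - 2 * (τ : ℂ) * Complex.I)) r)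
    (fun x : ℝ => Complex.exp ((k * x : ℝ) * Complex.I))]
  have e4 : ∫ x in Set.Ioo (-Real.pi) Real.pi, Complex.exp ((k * x : ℝ) * Complex.I) =
      if k = 0 then (2 * Real.pi : ℂ) else 0 := by
    rw [← integral_Ioc_eq_integral_Ioo, ← intervalIntegral.integral_of_le (by linarith)]
    split_ifs with hk
    · subst hk
      simp
      ring
    · have hk' : ((k : ℂ) * Complex.I) ≠ 0 := mul_ne_zero (by exact_mod_cast hk) Complex.I_ne_zero
      have e5 : (fun x : ℝ => Complex.exp ((k * x : ℝ) * Complex.I)) =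
          fun x : ℝ => Complex.exp (((k : ℂ) * Complex.I) * x) := by
        funext x; congr 1; push_cast; ring
      rw [e5, integral_exp_mul_complex hk']
      have e6 : Complex.exp ((k : ℂ) * Complex.I * (Real.pi : ℝ)) =
          Complex.exp ((k : ℂ) * Complex.I * ((-Real.pi : ℝ) : ℂ)) := by
        have e7 : (k : ℂ) * Complex.I * (Real.pi : ℝ) =
            (k : ℂ) * Complex.I * ((-Real.pi : ℝ) : ℂ) + k * (2 * Real.pi * Complex.I) := by
          push_cast; ring
        rw [e7, Complex.exp_add, Complex.exp_int_mul_two_pi_mul_I, mul_one]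
      rw [e6, sub_self, zero_div]
  rw [e4]
  split_ifs with hk
  · have hint : ∫ x in Set.Ioi (0 : ℝ), (Set.Ioc 0 ρ).indicator
        (fun r : ℝ => (r : ℂ) ^ (1 - 2 * (τ : ℂ) * Complex.I)) x =
        (ρ : ℂ) ^ (2 - 2 * (τ : ℂ) * Complex.I) / (2 - 2 * (τ : ℂ) * Complex.I) := by
      rw [setIntegral_indicator measurableSet_Ioc]
      have e8 : Set.Ioi (0 : ℝ) ∩ Set.Ioc 0 ρ = Set.Ioc 0 ρ := by
        apply Set.inter_eq_right.2
        intro x hx
        exact hx.1
      rw [e8, ← intervalIntegral.integral_of_le hρ.le, integral_cpow]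
      · have e9 : 1 - 2 * (τ : ℂ) * Complex.I + 1 = 2 - 2 * (τ : ℂ) * Complex.I := by ring
        rw [e9]
        have e10 : (2 - 2 * (τ : ℂ) * Complex.I) ≠ 0 := by
          intro h0
          have := congrArg Complex.re h0
          simp at this
        rw [Complex.ofReal_zero, Complex.zero_cpow e10, sub_zero]
      · left
        simp
    rw [hint]
    have hρc : (ρ : ℂ) ≠ 0 := by exact_mod_cast hρ.ne'
    have e11 : ((ρ ^ 2 : ℝ) : ℂ) ^ (1 - (τ : ℂ) * Complex.I) = (ρ : ℂ) ^ (2 - 2 * (τ : ℂ) * Complex.I) := by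
      rw [Complex.cpow_def_of_ne_zero hρc, Complex.cpow_def_of_ne_zero (by
        exact_mod_cast (pow_pos hρ 2).ne'), ← Complex.ofReal_log hρ.le,
        ← Complex.ofReal_log (pow_pos hρ 2).le, Real.log_pow]
      congr 1
      push_cast
      ring
    rw [e11]
    have e12 : (1 - (τ : ℂ) * Complex.I) ≠ 0 := by
      intro h0
      have := congrArg Complex.re h0
      simp at this
    have e13 : (2 - 2 * (τ : ℂ) * Complex.I) = 2 * (1 - (τ : ℂ) * Complex.I) := by ring
    rw [show (ρ : ℂ) ^ (2 - 2 * (τ : ℂ) * Complex.I) / (2 - 2 * (τ : ℂ) * Complex.I) =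
      (ρ : ℂ) ^ (2 - 2 * (τ : ℂ) * Complex.I) / (2 * (1 - (τ : ℂ) * Complex.I)) by rw [e13]]
    field_simp
  · rw [mul_zero]

/-- the square with lower left corner `t` -/
def sq (q : ℕ) (t : ZI) : Set ℂ :=
  Complex.measurableEquivRealProd ⁻¹' (Set.Ico (t.re : ℝ) (t.re + q) ×ˢ Set.Ico (t.im : ℝ) (t.im + q))

theorem mem_sq {q : ℕ} {t : ZI} {z : ℂ} : z ∈ sq q t ↔
    ((t.re : ℝ) ≤ z.re ∧ z.re < t.re + q) ∧ (t.im : ℝ) ≤ z.im ∧ z.im < t.im + q := by
  unfold sq
  rw [Set.mem_preimage, Complex.measurableEquivRealProd_apply, Set.mem_prod, Set.mem_Ico, Set.mem_Ico]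

theorem meas_sq (q : ℕ) (t : ZI) : MeasurableSet (sq q t) :=
  Complex.measurableEquivRealProd.measurable (measurableSet_Ico.prod measurableSet_Ico)

theorem vol_sq (q : ℕ) (t : ZI) : volume (sq q t) = ENNReal.ofReal ((q : ℝ) ^ 2) := by
  unfold sq
  rw [Complex.volume_preserving_equiv_real_prod.measure_preimage_equiv, Measure.volume_eq_prod,
    Measure.prod_prod, Real.volume_Ico, Real.volume_Ico, ← ENNReal.ofReal_mul (by simp)]
  congr 1
  ring

/-- the corner of the square (in the class of `r`) which contains `z` -/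
noncomputable def cor (q : ℕ) (r : ZI) (z : ℂ) : ZI :=
  ⟨r.re + q * ⌊(z.re - r.re) / q⌋, r.im + q * ⌊(z.im - r.im) / q⌋⟩

theorem one_dim {q : ℕ} (hq : 1 ≤ q) (r : ℤ) (x : ℝ) :
    ((r + q * ⌊(x - r) / q⌋ : ℤ) : ℝ) ≤ x ∧ x < ((r + q * ⌊(x - r) / q⌋ : ℤ) : ℝ) + q := by
  have hq0 : (0 : ℝ) < q := by exact_mod_cast hq
  have h1 := Int.floor_le ((x - r) / (q : ℝ))
  have h2 := Int.lt_floor_add_one ((x - r) / (q : ℝ))
  rw [le_div_iff₀ hq0] at h1
  rw [div_lt_iff₀ hq0] at h2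
  push_cast
  constructor <;> nlinarith

theorem one_uni {q : ℕ} (hq : 1 ≤ q) {r t : ℤ} {x : ℝ} (hd : (q : ℤ) ∣ t - r) (h1 : (t : ℝ) ≤ x)
    (h2 : x < t + q) : t = r + q * ⌊(x - r) / q⌋ := by
  have hq0 : (0 : ℝ) < q := by exact_mod_cast hq
  obtain ⟨m, hm⟩ := hd
  have hm' : (t : ℝ) - r = q * m := by exact_mod_cast hm
  have h3 : ⌊(x - r) / q⌋ = m := by
    rw [Int.floor_eq_iff]
    constructor
    · rw [le_div_iff₀ hq0]; linarith
    · rw [div_lt_iff₀ hq0]; nlinarith
  rw [h3]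
  linarith

theorem cor_mem {q : ℕ} (hq : 1 ≤ q) (r : ZI) (z : ℂ) : z ∈ sq q (cor q r z) := by
  rw [mem_sq]
  exact ⟨one_dim hq r.re z.re, one_dim hq r.im z.im⟩

theorem dvd_iff' {q : ℕ} {w : ZI} : ((q : ℕ) : ZI) ∣ w ↔ (q : ℤ) ∣ w.re ∧ (q : ℤ) ∣ w.im := by
  have := Zsqrtd.intCast_dvd (d := -1) (q : ℤ) w
  push_cast at this
  exact this

theorem cor_dvd {q : ℕ} (r : ZI) (z : ℂ) : ((q : ℕ) : ZI) ∣ cor q r z - r := by
  rw [dvd_iff']
  simp [cor]

theorem cor_uni {q : ℕ} (hq : 1 ≤ q) {r t : ZI} {z : ℂ} (hd : ((q : ℕ) : ZI) ∣ t - r) (h : z ∈ sq q t) :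
    t = cor q r z := by
  rw [mem_sq] at h
  rw [dvd_iff'] at hd
  simp only [Zsqrtd.re_sub, Zsqrtd.im_sub] at hd
  exact Zsqrtd.ext (one_uni hq hd.1 h.1.1 h.1.2) (one_uni hq hd.2 h.2.1 h.2.2)

theorem cor_near {q : ℕ} (hq : 1 ≤ q) (r : ZI) (z : ℂ) : ‖z - (cor q r z : ℂ)‖ ≤ 2 * q := by
  obtain ⟨⟨h1, h2⟩, h3, h4⟩ := mem_sq.1 (cor_mem hq r z)
  refine (Complex.norm_le_abs_re_add_abs_im _).trans ?_
  have e1 : (z - (cor q r z : ℂ)).re = z.re - (cor q r z).re := by
    rw [Complex.sub_re, ← GaussianInt.intCast_re]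
  have e2 : (z - (cor q r z : ℂ)).im = z.im - (cor q r z).im := by
    rw [Complex.sub_im, ← GaussianInt.intCast_im]
  rw [e1, e2, abs_of_nonneg (by linarith), abs_of_nonneg (by linarith)]
  linarith

theorem meas_Psi (k : ℤ) (τ : ℝ) : Measurable (Psi k τ) := by
  unfold Psi
  have h1 : Measurable Complex.arg := Complex.measurable_arg
  fun_prop

open Classical in
theorem el : S_EL := by
  refine ⟨300 * Real.pi, by positivity, ?_⟩
  intro k τ q r Y hq hY
  have hpi := Real.pi_pos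
  have hq0 : (0 : ℝ) < q := by exact_mod_cast hq
  have hq1 : (1 : ℝ) ≤ q := by exact_mod_cast hq
  have hY0 : (0 : ℝ) < Y := by linarith
  set ρ := Real.sqrt Y with hρ
  have hρ1 : 1 ≤ ρ := by rw [hρ]; exact Real.one_le_sqrt.2 hY
  have hρ0 : 0 < ρ := by linarith
  have hρ2 : ρ ^ 2 = Y := Real.sq_sqrt hY0.le
  set κ := |(k : ℝ)| + |τ| with hκ
  have hκ0 : 0 ≤ κ := by positivity
  set G : ℂ → ℂ := fun z => ∑ t ∈ cls q r Y, (sq q t).indicator (fun _ => Psi k τ (t : ℂ)) z with hG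
  set H : ℂ → ℂ := (Metric.closedBall (0 : ℂ) ρ).indicator (Psi k τ) with hH
  have hclsm : ∀ t, t ∈ cls q r Y ↔ (t ≠ 0 ∧ nz t ≤ Y) ∧ ((q : ℕ) : ZI) ∣ t - r := by
    intro t
    unfold cls
    rw [Finset.mem_filter, mem_bl]
  have hGval : ∀ z, G z = if cor q r z ∈ cls q r Y then Psi k τ (cor q r z : ℂ) else 0 := by
    intro z
    simp only [hG]
    split_ifs with h
    · rw [Finset.sum_eq_single_of_mem _ h]
      · rw [Set.indicator_of_mem (cor_mem hq r z)]
      · intro t ht hne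
        rw [Set.indicator_of_notMem]
        intro hz
        exact hne (cor_uni hq ((hclsm t).1 ht).2 hz)
    · apply Finset.sum_eq_zero
      intro t ht
      rw [Set.indicator_of_notMem]
      intro hz
      apply h
      rw [← cor_uni hq ((hclsm t).1 ht).2 hz]
      exact ht
  have hfin : ∀ t, volume (sq q t) ≠ ⊤ := fun t => by rw [vol_sq]; exact ENNReal.ofReal_ne_top
  have hGi : Integrable G := by
    apply integrable_finsetSum
    intro t _
    exact (integrable_indicator_iff (meas_sq q t)).2 (integrableOn_const (hfin t))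
  have hHi : Integrable H := by
    rw [hH, integrable_indicator_iff Metric.isClosed_closedBall.measurableSet]
    apply Measure.integrableOn_of_bounded (M := 1)
    · exact (measure_closedBall_lt_top).ne
    · exact (meas_Psi k τ).aestronglyMeasurable
    · exact Filter.Eventually.of_forall fun z => (norm_Psi k τ z).le
  have hGint : ∫ z, G z = ((q : ℂ) ^ 2) * ∑ t ∈ cls q r Y, ph k τ t := by
    simp only [hG]
    rw [integral_finsetSum]
    · rw [Finset.mul_sum]
      apply Finset.sum_congr rfl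
      intro t _
      rw [integral_indicator (meas_sq q t), setIntegral_const, ph_eq, Measure.real, vol_sq,
        ENNReal.toReal_ofReal (by positivity), Complex.real_smul]
      push_cast
      ring
    · intro t _
      exact (integrable_indicator_iff (meas_sq q t)).2 (integrableOn_const (hfin t))
  have hHint : ∫ z, H z = if k = 0 then
      (Real.pi : ℂ) * ((Y : ℂ) ^ (1 - (τ : ℂ) * Complex.I) / (1 - (τ : ℂ) * Complex.I)) else 0 := by
    rw [hH, main_int k τ hρ0, hρ2]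
  -- pointwise bound
  set b : ℝ → ENNReal := fun x => 2 * (Set.Icc 0 (8 * (q : ℝ))).indicator (fun _ => (1 : ENNReal)) x +
    (Set.Icc (ρ - 2 * q) (ρ + 2 * q)).indicator (fun _ => (1 : ENNReal)) x +
    ENNReal.ofReal (6 * κ * q) * (Set.Icc 0 ρ).indicator (fun x => ENNReal.ofReal (1 / x)) x with hb
  have hpt : ∀ z, ‖G z - H z‖ₑ ≤ b ‖z‖ := by
    intro z
    have hnear := cor_near hq r z
    set t := cor q r z with ht
    have hGn : ‖G z‖ₑ ≤ 1 := by
      rw [hGval]
      split_ifs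
      · rw [← ofReal_norm, norm_Psi]; simp
      · simp
    have hHn : ‖H z‖ₑ ≤ 1 := by
      rw [hH, Set.indicator_apply]
      split_ifs
      · rw [← ofReal_norm, norm_Psi]; simp
      · simp
    by_cases hz8 : ‖z‖ ≤ 8 * q
    · have h1 : (Set.Icc 0 (8 * (q : ℝ))).indicator (fun _ => (1 : ENNReal)) ‖z‖ = 1 :=
        Set.indicator_of_mem (show ‖z‖ ∈ Set.Icc 0 (8 * (q : ℝ)) from ⟨norm_nonneg z, hz8⟩) _
      calc ‖G z - H z‖ₑ ≤ ‖G z‖ₑ + ‖H z‖ₑ := enorm_sub_le
        _ ≤ 1 + 1 := add_le_add hGn hHn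
        _ = 2 * 1 := by norm_num
        _ ≤ b ‖z‖ := by
          rw [hb]
          simp only [h1]
          rw [add_assoc]
          exact le_self_add
    · push Not at hz8
      have htn : 6 * q ≤ ‖(t : ℂ)‖ := by
        have := norm_sub_norm_le z (t : ℂ)
        linarith
      have ht0 : t ≠ 0 := by
        intro h0
        rw [h0] at htn
        simp at htn
        linarith
      have htc : t ∈ cls q r Y ↔ ‖(t : ℂ)‖ ≤ ρ := by
        rw [hclsm]
        constructor
        · rintro ⟨⟨-, h2⟩, -⟩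
          rw [nz_norm, ← hρ2] at h2
          exact le_of_sq_le_sq h2 hρ0.le
        · intro h
          refine ⟨⟨ht0, ?_⟩, cor_dvd r z⟩
          rw [nz_norm, ← hρ2]
          exact pow_le_pow_left₀ (norm_nonneg _) h 2
      have hzc : z ∈ Metric.closedBall (0 : ℂ) ρ ↔ ‖z‖ ≤ ρ := mem_closedBall_zero_iff
      have hd1 : |‖z‖ - ‖(t : ℂ)‖| ≤ 2 * q := (abs_norm_sub_norm_le _ _).trans hnear
      rw [abs_le] at hd1
      have hann : ‖z‖ ∈ Set.Icc (ρ - 2 * q) (ρ + 2 * q) → 1 ≤ b ‖z‖ := by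
        intro h
        rw [hb]
        simp only [Set.indicator_of_mem h]
        rw [add_comm (2 * _) (1 : ENNReal), add_assoc]
        exact le_self_add
      rw [hGval, hH, Set.indicator_apply]
      rw [← ht]
      by_cases h1 : ‖(t : ℂ)‖ ≤ ρ
      · rw [if_pos (htc.2 h1)]
        by_cases h2 : ‖z‖ ≤ ρ
        · rw [if_pos (hzc.2 h2)]
          have hz0 : z ≠ 0 := by
            intro h0; rw [h0] at hz8; simp at hz8; linarith
          have h3 := lip k τ (z := z) (w := (t : ℂ)) hz0 (by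
            rw [norm_sub_rev]; linarith)
          have h4 : ‖Psi k τ (t : ℂ) - Psi k τ z‖ ≤ 6 * κ * q * (1 / ‖z‖) := by
            refine h3.trans ?_
            rw [norm_sub_rev, ← hκ]
            have hzp : 0 < ‖z‖ := norm_pos_iff.2 hz0
            calc 3 * κ * (‖z - (t : ℂ)‖ / ‖z‖) ≤ 3 * κ * (2 * q / ‖z‖) := by gcongr
              _ = _ := by ring
          have h5 : ‖Psi k τ (t : ℂ) - Psi k τ z‖ₑ ≤ ENNReal.ofReal (6 * κ * q) *
              ENNReal.ofReal (1 / ‖z‖) := by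
            rw [← ENNReal.ofReal_mul (by positivity), ← ofReal_norm]
            exact ENNReal.ofReal_le_ofReal h4
          refine h5.trans ?_
          rw [hb]
          simp only
          rw [Set.indicator_of_mem (show ‖z‖ ∈ Set.Icc 0 ρ from ⟨norm_nonneg z, h2⟩)]
          exact le_add_self
        · rw [if_neg (fun h => h2 (hzc.1 h)), sub_zero]
          push Not at h2
          refine le_trans ?_ (hann ⟨by linarith, by linarith⟩)
          rw [← ofReal_norm, norm_Psi]; simp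
      · rw [if_neg (fun h => h1 (htc.1 h))]
        push Not at h1
        by_cases h2 : ‖z‖ ≤ ρ
        · rw [if_pos (hzc.2 h2), zero_sub, enorm_neg]
          refine le_trans ?_ (hann ⟨by linarith, by linarith⟩)
          rw [← ofReal_norm, norm_Psi]; simp
        · rw [if_neg (fun h => h2 (hzc.1 h)), sub_zero]
          simp
  have hlint : ∫⁻ z, ‖G z - H z‖ₑ ≤ ENNReal.ofReal (2 * (2 * Real.pi * (8 * q * (8 * q - 0))) +
      2 * Real.pi * ((ρ + 2 * q) * ((ρ + 2 * q) - (ρ - 2 * q))) + 6 * κ * q * (2 * Real.pi * ρ)) := by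
    have m1 : Measurable fun z : ℂ => (Set.Icc 0 (8 * (q : ℝ))).indicator (fun _ => (1 : ENNReal)) ‖z‖ :=
      (measurable_const.indicator measurableSet_Icc).comp measurable_norm
    have m2 : Measurable fun z : ℂ =>
        (Set.Icc (ρ - 2 * q) (ρ + 2 * q)).indicator (fun _ => (1 : ENNReal)) ‖z‖ :=
      (measurable_const.indicator measurableSet_Icc).comp measurable_norm
    have m3 : Measurable fun z : ℂ => (Set.Icc 0 ρ).indicator (fun x => ENNReal.ofReal (1 / x)) ‖z‖ :=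
      (Measurable.indicator (by fun_prop) measurableSet_Icc).comp measurable_norm
    calc ∫⁻ z, ‖G z - H z‖ₑ ≤ ∫⁻ z : ℂ, b ‖z‖ := lintegral_mono hpt
      _ = 2 * (∫⁻ z : ℂ, (Set.Icc 0 (8 * (q : ℝ))).indicator (fun _ => (1 : ENNReal)) ‖z‖) +
          (∫⁻ z : ℂ, (Set.Icc (ρ - 2 * q) (ρ + 2 * q)).indicator (fun _ => (1 : ENNReal)) ‖z‖) +
          ENNReal.ofReal (6 * κ * q) *
            ∫⁻ z : ℂ, (Set.Icc 0 ρ).indicator (fun x => ENNReal.ofReal (1 / x)) ‖z‖ := by
          simp only [hb]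
          rw [lintegral_add_left (f := fun z : ℂ => 2 * (Set.Icc 0 (8 * (q : ℝ))).indicator
            (fun _ => (1 : ENNReal)) ‖z‖ + (Set.Icc (ρ - 2 * q) (ρ + 2 * q)).indicator
            (fun _ => (1 : ENNReal)) ‖z‖) ((m1.const_mul _).add m2),
            lintegral_add_left (m1.const_mul _),
            lintegral_const_mul _ m1, lintegral_const_mul _ m3]
      _ ≤ 2 * ENNReal.ofReal (2 * Real.pi * (8 * q * (8 * q - 0))) +
          ENNReal.ofReal (2 * Real.pi * ((ρ + 2 * q) * ((ρ + 2 * q) - (ρ - 2 * q)))) +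
          ENNReal.ofReal (6 * κ * q) * ENNReal.ofReal (2 * Real.pi * ρ) := by
          gcongr
          · exact rad_ann (by positivity)
          · exact rad_ann (by positivity)
          · exact rad_inv
      _ = _ := by
          have p1 : (0 : ℝ) ≤ 2 * Real.pi * (8 * q * (8 * q - 0)) := by
            rw [sub_zero]; positivity
          have p2 : (0 : ℝ) ≤ 2 * Real.pi * ((ρ + 2 * q) * ((ρ + 2 * q) - (ρ - 2 * q))) := by
            have : (ρ + 2 * q) - (ρ - 2 * q) = 4 * (q : ℝ) := by ring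
            rw [this]; positivity
          rw [← ENNReal.ofReal_mul (by positivity), ENNReal.ofReal_add (by positivity) (by positivity),
            ENNReal.ofReal_add (by positivity) p2, ENNReal.ofReal_mul (by norm_num : (0 : ℝ) ≤ 2) (q := 2 * Real.pi * (8 * q * (8 * q - 0)))]
          simp
  have hnorm : ‖∫ z, (G z - H z)‖ ≤ 2 * (2 * Real.pi * (8 * q * (8 * q - 0))) +
      2 * Real.pi * ((ρ + 2 * q) * ((ρ + 2 * q) - (ρ - 2 * q))) + 6 * κ * q * (2 * Real.pi * ρ) := by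
    have h1 := norm_integral_le_lintegral_norm (μ := volume) (fun z => G z - H z)
    refine h1.trans ?_
    apply ENNReal.toReal_le_of_le_ofReal
    · have : (ρ + 2 * q) - (ρ - 2 * q) = 4 * (q : ℝ) := by ring
      rw [this, sub_zero]
      positivity
    · simpa only [ofReal_norm] using hlint
  rw [integral_sub hGi hHi, hGint, hHint] at hnorm
  have hqc : (q : ℂ) ≠ 0 := by exact_mod_cast hq0.ne'
  have hfac : ∑ t ∈ cls q r Y, ph k τ t - (if k = 0 then ((Real.pi / (q : ℝ) ^ 2 : ℝ) : ℂ) *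
      ((Y : ℂ) ^ (1 - (τ : ℂ) * Complex.I) / (1 - (τ : ℂ) * Complex.I)) else 0) =
      (1 / (q : ℂ) ^ 2) * ((q : ℂ) ^ 2 * ∑ t ∈ cls q r Y, ph k τ t - (if k = 0 then
      (Real.pi : ℂ) * ((Y : ℂ) ^ (1 - (τ : ℂ) * Complex.I) / (1 - (τ : ℂ) * Complex.I)) else 0)) := by
    rw [mul_sub, ← mul_assoc, one_div, inv_mul_cancel₀ (pow_ne_zero 2 hqc), one_mul]
    congr 1
    split_ifs
    · push_cast
      field_simp
    · simp
  rw [hfac, norm_mul]
  have hn1 : ‖1 / (q : ℂ) ^ 2‖ = 1 / (q : ℝ) ^ 2 := by simp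
  rw [hn1]
  calc 1 / (q : ℝ) ^ 2 * _ ≤ 1 / (q : ℝ) ^ 2 * (2 * (2 * Real.pi * (8 * q * (8 * q - 0))) +
      2 * Real.pi * ((ρ + 2 * q) * ((ρ + 2 * q) - (ρ - 2 * q))) + 6 * κ * q * (2 * Real.pi * ρ)) := by
        gcongr
    _ = Real.pi * (256 + 8 * (ρ / q) + 16 + 12 * κ * (ρ / q)) := by
        field_simp
        ring
    _ ≤ Real.pi * (256 * ρ + 8 * ρ + 16 * ρ + 12 * κ * ρ) := by
        have h1 : ρ / q ≤ ρ := div_le_self hρ0.le hq1
        gcongr
        · linarith
        · linarith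
    _ ≤ 300 * Real.pi * (1 + |(k : ℝ)| + |τ|) * ρ := by
        rw [add_assoc 1, ← hκ]
        have h2 : 0 ≤ κ * ρ := by positivity
        have h3 : 256 * ρ + 8 * ρ + 16 * ρ + 12 * κ * ρ ≤ 300 * (1 + κ) * ρ := by nlinarith
        calc Real.pi * (256 * ρ + 8 * ρ + 16 * ρ + 12 * κ * ρ) ≤ Real.pi * (300 * (1 + κ) * ρ) := by
              gcongr
          _ = _ := by ring

end Pool.Agent.N56.GN
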