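import Pool.Agent.N782.GN.StmB

/-!
# GN/CHR: the lattice of the pairs `(Re w₁v, Re w₂v)`
-/

set_option autoImplicit false

namespace Pool.Agent.N56.GN

open Pool.Agent.N782.GN

theorem chr_lat : S_CHR := by
  intro w1 w2 h1 h2 hD
  obtain ⟨a, b⟩ := w1
  obtain ⟨c, d⟩ := w2
  simp only [ct] at h1 h2
  obtain ⟨x, y, hxy⟩ : IsCoprime a b := Int.isCoprime_iff_gcd_eq_one.2 h1
  obtain ⟨x', y', hxy'⟩ : IsCoprime c d := Int.isCoprime_iff_gcd_eq_one.2 h2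
  -- `w' = e + f i`, `a f - b e = 1`
  obtain ⟨e, f, hef⟩ : ∃ e f : ℤ, a * f - b * e = 1 := ⟨-y, x, by linarith⟩
  have hdl : dl (⟨a, b⟩ : ZI) ⟨c, d⟩ = a * d - b * c := rfl
  rw [hdl] at hD ⊢
  have hc : c = (c * f - d * e) * a + (a * d - b * c) * e := by linear_combination (-c) * hef
  have hd : d = (c * f - d * e) * b + (a * d - b * c) * f := by linear_combination (-d) * hef
  refine ⟨c * f - d * e, ⟨a * x' + b * y', e * x' + f * y', ?_⟩, ⟨⟨e, f⟩, ?_⟩, ?_, ?_⟩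
  · linear_combination hxy' - x' * hc - y' * hd
  · rw [Zsqrtd.ext_iff]
    constructor
    · simp
      linarith
    · simp
      linarith
  · intro l1 l2
    constructor
    · rintro ⟨⟨v1, v2⟩, g1, g2⟩
      simp at g1 g2
      refine ⟨e * v1 - f * v2, ?_⟩
      rw [← g1, ← g2]
      linear_combination v1 * hc - v2 * hd
    · rintro ⟨k, hk⟩
      refine ⟨⟨f * l1 - b * k, e * l1 - a * k⟩, ?_, ?_⟩
      · simp
        linear_combination l1 * hef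
      · simp
        linear_combination (-1 : ℤ) * hk + k * (c * 0) + k * (a * d - b * c) * 0
  · rintro ⟨v1, v2⟩
    rw [nz_eq]
    have e1 : ‖((⟨c, d⟩ : ZI) : ℂ) * ((((⟨a, b⟩ : ZI) * ⟨v1, v2⟩).re : ℤ) : ℂ) -
        ((⟨a, b⟩ : ZI) : ℂ) * ((((⟨c, d⟩ : ZI) * ⟨v1, v2⟩).re : ℤ) : ℂ)‖ ^ 2 =
        Complex.normSq (((⟨c, d⟩ : ZI) : ℂ) * ((((⟨a, b⟩ : ZI) * ⟨v1, v2⟩).re : ℤ) : ℂ) -
        ((⟨a, b⟩ : ZI) : ℂ) * ((((⟨c, d⟩ : ZI) * ⟨v1, v2⟩).re : ℤ) : ℂ)) :=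
      (Complex.normSq_eq_norm_sq _).symm
    rw [e1, Complex.normSq_apply]
    simp [GaussianInt.toComplex_def]
    ring

end Pool.Agent.N56.GN
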